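import Pool.Agent.H37.CNJ.Stmts

/-! # Board cnj, row HC3: the Suzuki groups have covers branched only at infinity -/

set_option autoImplicit false

namespace Pool.CND

open Finset Matrix

theorem hc3_thm (hZZE : S_ZZE) (hZZK : S_ZZK) : S_HC3 := by
  intro n q k F _ _ _ _ φ hk hn hq hF hφ
  have hx : 2 ≤ 2 ^ n := by
    calc 2 = 2 ^ 1 := (pow_one 2).symm
      _ ≤ 2 ^ n := Nat.pow_le_pow_right (by norm_num) hn
  obtain ⟨y, hy⟩ : ∃ y, 2 ^ n = y + 1 := ⟨2 ^ n - 1, by omega⟩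
  have hq' : q = 2 * (y + 1) ^ 2 := by
    rw [hq, pow_succ, mul_comm 2 n, pow_mul, hy]; ring
  have hf' : 2 ^ (n + 1) = 2 * (y + 1) := by
    rw [pow_succ, hy]; ring
  have he : (2 * y ^ 2 + 2 * y + 1) + 2 ^ (n + 1) = q + 1 := by rw [hq', hf']; ring
  have hF0 : Nat.card F ≠ 0 := by
    rw [hF, hq']
    positivity
  have hFin : Finite F := Nat.finite_of_card_ne_zero hF0
  have h2 : Fact (Nat.Prime 2) := ⟨Nat.prime_two⟩
  let _ : Algebra (ZMod 2) F := ZMod.algebra F 2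
  let _ : Algebra (ZMod 2) k := ZMod.algebra k 2
  let ψ : F →+* k := (IsAlgClosed.lift (R := ZMod 2) (S := F) (M := k)).toRingHom
  let _ : Algebra F k := ψ.toAlgebra
  obtain ⟨L, i1, i2, t, X, ρ, P, hD⟩ :=
    hZZE n q (2 ^ (n + 1)) (2 * y ^ 2 + 2 * y + 1) k F φ hk hn rfl hq he hF hφ
  exact ⟨L, i1, i2, ρ, t,
    hZZK n q (2 ^ (n + 1)) (2 * y ^ 2 + 2 * y + 1) k F L φ t X ρ P hk hn rfl hq he hF hφ hD⟩

end Pool.CND
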